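import Pool.Agent.Helper30.Full.Final

/-!
# Soluble pro-p groups with decidable elementary theory

Let `G` be a topologically finitely generated, soluble, torsion-free pro-p group. If the elementary
theory of `G` (in the language of groups) is decidable, then `G` has finite rank, i.e. is `p`-adic
analytic.

Outline of the proof.

* `FES`-series: finite series of closed normal subgroups whose factors are abelian and either of
  exponent `p` or topologically finitely generated. Main step: every finitely generated soluble
  pro-p group `G` with decidable theory has an `FES`-series. Induction on the derived length:
  `V = Z(C_G(A))`, `A` the last term of the derived series, is a definable closed abelian normal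
  subgroup, and `G / V` has decidable theory and smaller derived length, so it has an `FES`-series.
  If no `V^(p^e)` is finitely generated, the theory of `G` is shown to be undecidable.
* The centralising lemma for central extensions of groups with `FES`-series shows that no open
  subgroup acts trivially on some `V^(p^k) / V^(p^(k+1))`, and then there is an element `g` such that
  `T_g = g - 1` is not nilpotent on any `V^(p^k) / V^(p^(k+1))`. The `p^n`-th powers of the elements
  of the centre of the centralizer of `g` in `G / C_G(V)` form a finitely generated abelian group,
  which is definable with the parameter `g`; so one has a continuous action of `ℤ_p^d` on the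
  compact abelian pro-p group `V`.
* Configurations: closed subgroups `S` of `ℤ_p^d` with closed sections `X = X1 / X2` of `V`, obtained
  from `(ℤ_p^d, V)` by definable operations (stabilisers `{k : T_k x ∈ T_u X}`, images and kernels
  of `T_u`, `p X`, `X / p X`, `p S`). A configuration of minimal rank has strong uniformity
  properties. There are two kinds, `X` killed by `p` with an unbounded element, and `X` with an
  element which is not small; in the second case one works with the cyclotomic quotients
  `X / Ψ_n(g) X`, `Ψ_n(g) = Σ_{i<p} g^(i p^n)`, `B ≤ n ≤ B + w`.
* In both cases one formula defines, for suitable parameters, a linear order of any given finite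
  length `w` on a set of acting elements (a clock), and all functions `c` with `c(n) < n` on the
  clock are coded by elements of `X`. So halting runs of counter machines are coded; since for
  arbitrary parameters the defined orders are well-founded (Nakayama's lemma and the ascending chain
  condition in `ℤ_p^d`), the coding is sound, and the theory is undecidable.
* Torsion-free groups with an `FES`-series have finite rank.
-/

set_option autoImplicit false

namespace Pool.Agent.Results.MP_ac806c_lc.Chapuis

open Pool.Agent.Helper85.ProP

/-- A topologically finitely generated, soluble, torsion-free pro-p group `G` with decidable
elementary theory has finite rank. -/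
theorem result.{u} (p : ℕ) [Fact p.Prime] (G : Type u) [Group G] [TopologicalSpace G]
    [IsTopologicalGroup G] [CompactSpace G] [T2Space G] [TotallyDisconnectedSpace G]
    (hpro : ∀ U : Subgroup G, U.Normal → IsOpen (U : Set G) → ∃ n : ℕ, U.index = p ^ n)
    (hfg : ∃ S : Finset G, (Subgroup.closure (S : Set G)).topologicalClosure = ⊤)
    (hsol : Group.IsSolvable G)
    (htf : ∀ (g : G) (n : ℕ), 0 < n → g ^ n = 1 → g = 1)
    (hdec : DecTh G) :
    ∃ r : ℕ, ∀ H : Subgroup G, IsClosed (H : Set G) →
      ∃ S : Finset G, S.card ≤ r ∧ (Subgroup.closure (S : Set G)).topologicalClosure = H := by
  classical
  obtain ⟨r, hr⟩ := Pool.Agent.Helper30.Full.final p G hpro hfg hsol htf hdec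
  refine ⟨r, fun H hH => ?_⟩
  obtain ⟨f, hf⟩ := hr H hH
  refine ⟨Finset.univ.image f, Finset.card_image_le.trans (by simp), ?_⟩
  rw [Finset.coe_image, Finset.coe_univ, Set.image_univ]
  exact hf

end Pool.Agent.Results.MP_ac806c_lc.Chapuis
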